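import Pool.Agent.Work.MP_54ef3e_nt.Bd.B07
import Pool.Agent.Work.MP_54ef3e_nt.Bd.B03
import Pool.Agent.Work.MP_54ef3e_nt.Bd.B05
import Pool.Agent.Work.MP_54ef3e_nt.Bd.B06
import Pool.Agent.Work.MP_54ef3e_nt.Bd.B02
import Pool.Agent.Work.MP_54ef3e_nt.Bd.B04

/-!
# Freiman's `3k-4` theorem modulo a prime in the full range, density `1/35`
-/

set_option autoImplicit false

open scoped Pointwise

namespace Pool.Agent.Fr

open Pool.Agent.LS Pool.Agent.Fou Pool.Agent.Fr.Cert

theorem soundness : Soundness :=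
  th_KRUN th_KM th_KB th_KE
    (th_KLEAF th_KB th_KE th_KL th_KC
      (th_KROWS th_KA th_KL
        (th_KROW th_KM th_KB th_KV th_KF th_KN th_KR th_KL)))

theorem secC : SecC := th_SEC th_INT th_STEP1 th_STEP2 th_AVG

theorem funC : FunC := th_FUN th_R2 th_R3 th_R4 th_R5 th_R6 th_R7

theorem freqA {p : ℕ} [Fact p.Prime] {S : Finset (ZMod p)} (hS : Hyp S) (hC : ¬ Concl S)
    (hk : 17 ≤ S.card) : Freq S 13251 6810 (-2082) 16841 6990 := by
  rcases th_CASE2 th_E3 th_E4 th_E5 th_E7' th_E8' th_E10 th_E11 th_X1 th_T2 th_R2 th_R3 th_H1 th_F2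
    th_C2I th_C2F p S hS hk with h | h
  · exact th_FA th_MAX th_MH th_FX th_NE th_E3 th_E5 th_E8' th_E9 th_E10 th_E11 th_R3 th_R4 th_TA
      th_LA th_PA0 th_PA1 p S hS hC h hk
  · exact absurd h hC

theorem freqB {p : ℕ} [Fact p.Prime] {S : Finset (ZMod p)} (hS : Hyp S) (hC : ¬ Concl S)
    (hk : 8 ≤ S.card) (hk' : S.card ≤ 16) : Freq S 12242 (-9512) (-792) 15366 5691 :=
  th_FB th_MAX th_MH th_FX th_NE th_E3 th_E5 th_E7' th_E9 th_E10 th_E11 th_R3 th_R4 th_TB th_LB1
    th_PB0 th_PB1 p S hS hC hk hk'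

theorem freqC {p : ℕ} [Fact p.Prime] {S : Finset (ZMod p)} (hS : Hyp S) (hC : ¬ Concl S)
    (hk' : S.card ≤ 7) : Freq S 13090 (-3396) 0 0 0 :=
  th_FC th_FX th_NE th_E3 th_E5 th_E7' th_E11 th_TB th_LB2 th_PC0 p S hS hC hS.three hk'

/-- **The `3k-4` theorem modulo `p` in the full range for `|S| < p/35`.** -/
theorem concl {p : ℕ} [Fact p.Prime] {S : Finset (ZMod p)} (hS : Hyp S) : Concl S := by
  by_contra hC
  have h3 := hS.three
  rcases le_or_gt 17 S.card with h17 | h17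
  · refine close th_PH funC hS hC (A0 := 13251) (C0 := 6810) (A1 := -2082) (B1 := 16841)
      (C1 := 6990) ?_ fun ps h0 h1 => settledA soundness secC th_TR26 th_TR18 th_KAP h0 h1 h17
    have := freqA hS hC h17
    push_cast
    exact this
  rcases le_or_gt 8 S.card with h8 | h8
  · refine close th_PH funC hS hC (A0 := 12242) (C0 := -9512) (A1 := -792) (B1 := 15366)
      (C1 := 5691) ?_ fun ps h0 h1 => settledB soundness secC th_TR26 th_TR18 th_KAP h0 h1 h8
        (by omega)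
    have := freqB hS hC h8 (by omega)
    push_cast
    exact this
  · refine close th_PH funC hS hC (A0 := 13090) (C0 := -3396) (A1 := 0) (B1 := 0)
      (C1 := 0) ?_ fun ps h0 h1 => settledC soundness secC th_TR26 th_TR18 th_KAP h0 h1 h3
        (by omega)
    have := freqC hS hC (by omega)
    push_cast
    exact this

/-- The frozen statement. -/
theorem main (p : ℕ) (hp : p.Prime) (S : Finset (ZMod p)) (hsm : 35 * S.card < p)
    (hd : (S + S).card + 4 ≤ 3 * S.card) :
    ∃ a d : ZMod p,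
      S ⊆ (Finset.range ((S + S).card + 1 - S.card)).image
            (fun i : ℕ => a + (i : ZMod p) * d) := by
  have : Fact p.Prime := ⟨hp⟩
  have hne : S.Nonempty := by
    rw [← Finset.card_pos]
    omega
  have hcd := ZMod.cauchy_davenport hp hne hne
  have h3 : 3 ≤ S.card := by omega
  obtain ⟨a, d, h⟩ := concl (S := S) ⟨h3, hsm, hd⟩
  refine ⟨a, d, fun s hs => ?_⟩
  obtain ⟨i, hi, e⟩ := h s hs
  exact Finset.mem_image.mpr ⟨i, Finset.mem_range.mpr hi, e.symm⟩

end Pool.Agent.Fr
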